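import Pool.Agent.helper17.SG.SpecB

set_option autoImplicit false

open MeasureTheory Set Metric Filter Topology
open scoped ENNReal NNReal ComplexConjugate

namespace Pool.Agent.SG

theorem B02_den (a b z : ℂ) (hab : ‖a‖ ^ 2 - ‖b‖ ^ 2 = 1) (hz : ‖z‖ ≤ 1) :
    conj b * z + conj a ≠ 0 := by
  intro h
  have h1 : conj a = -(conj b * z) := by
    rw [eq_neg_iff_add_eq_zero, add_comm]
    exact h
  have h2 : ‖a‖ = ‖b‖ * ‖z‖ := by
    rw [← Complex.norm_conj a, h1, norm_neg, norm_mul, Complex.norm_conj]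
  have h3 : ‖a‖ ≤ ‖b‖ := by
    rw [h2]
    exact mul_le_of_le_one_right (norm_nonneg _) hz
  nlinarith [norm_nonneg a, norm_nonneg b]

theorem B02_ab (a b : ℂ) (hab : ‖a‖ ^ 2 - ‖b‖ ^ 2 = 1) : a * conj a - b * conj b = 1 := by
  rw [Complex.mul_conj, Complex.mul_conj, Complex.normSq_eq_norm_sq, Complex.normSq_eq_norm_sq,
    ← Complex.ofReal_sub, hab, Complex.ofReal_one]

theorem B02_a (a b : ℂ) (hab : ‖a‖ ^ 2 - ‖b‖ ^ 2 = 1) : a ≠ 0 := by
  intro h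
  rw [h, norm_zero] at hab
  nlinarith [sq_nonneg ‖b‖]

/-- `1 - conj (pt γ⁻¹) z = (conj b z + conj a) / conj a`. -/
theorem B02_q {Γ : Type} [Group Γ] (h1 : B01_stmt) (A : DiscRep Γ) (γ : Γ) (z : ℂ) :
    1 - conj (A.pt γ⁻¹) * z = (conj (A.b γ) * z + conj (A.a γ)) / conj (A.a γ) := by
  obtain ⟨p1, -, -, -, -, -, p7, -, -, -⟩ := h1 Γ A
  have hab := A.norm_eq γ
  have ha := B02_a _ _ hab
  have hca : conj (A.a γ) ≠ 0 := (map_ne_zero _).mpr ha
  have hq1 : ‖A.pt γ⁻¹‖ ≤ 1 := p1 γ⁻¹ 0 (by simp)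
  have hd := B02_den _ _ _ hab hq1
  have h2 : A.act γ (A.pt γ⁻¹) = 0 := p7 γ 0 (by simp)
  have h3 : A.a γ * A.pt γ⁻¹ + A.b γ = 0 := by
    have h4 : (A.a γ * A.pt γ⁻¹ + A.b γ) / (conj (A.b γ) * A.pt γ⁻¹ + conj (A.a γ)) = 0 := h2
    rcases div_eq_zero_iff.mp h4 with h5 | h5
    · exact h5
    · exact absurd h5 hd
  have h6 : A.pt γ⁻¹ = -(A.b γ) / A.a γ := by
    rw [eq_div_iff ha]
    linear_combination h3
  rw [h6, map_div₀, map_neg, eq_div_iff hca]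
  field_simp
  ring

theorem B02_kk {Γ : Type} [Group Γ] (A : DiscRep Γ) (γ : Γ) : A.kk γ = 1 / ‖A.a γ‖ ^ 2 := by
  have hab := A.norm_eq γ
  have ha := B02_a _ _ hab
  have hna : ‖A.a γ‖ ≠ 0 := norm_ne_zero_iff.mpr ha
  have h1 : A.pt γ = A.b γ / conj (A.a γ) := by
    simp [DiscRep.pt, DiscRep.act, mob]
  unfold DiscRep.kk
  rw [h1, norm_div, Complex.norm_conj, div_pow, eq_div_iff (pow_ne_zero 2 hna), sub_mul, one_mul,
    div_mul_cancel₀ _ (pow_ne_zero 2 hna)]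
  exact hab

theorem B02 (h1 : B01_stmt) : B02_stmt := by
  intro Γ _ A γ
  have hab := A.norm_eq γ
  have hab' := B02_ab _ _ hab
  have ha := B02_a _ _ hab
  have hna : ‖A.a γ‖ ≠ 0 := norm_ne_zero_iff.mpr ha
  have key : ∀ z, ‖z‖ ≤ 1 → ‖1 - conj (A.pt γ⁻¹) * z‖ =
      ‖conj (A.b γ) * z + conj (A.a γ)‖ / ‖A.a γ‖ := by
    intro z _
    rw [B02_q h1 A γ z, norm_div, Complex.norm_conj]
  have e1 : ∀ z w, ‖z‖ ≤ 1 → ‖w‖ ≤ 1 → ‖A.act γ z - A.act γ w‖ * ‖1 - conj (A.pt γ⁻¹) * z‖ *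
      ‖1 - conj (A.pt γ⁻¹) * w‖ = A.kk γ * ‖z - w‖ := by
    intro z w hz hw
    have dz := B02_den _ _ _ hab hz
    have dw := B02_den _ _ _ hab hw
    have h2 : A.act γ z - A.act γ w = (z - w) /
        ((conj (A.b γ) * z + conj (A.a γ)) * (conj (A.b γ) * w + conj (A.a γ))) := by
      unfold DiscRep.act mob
      rw [div_sub_div _ _ dz dw]
      congr 1
      linear_combination (z - w) * hab'
    rw [h2, key z hz, key w hw, B02_kk, norm_div, norm_mul]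
    have nz := norm_ne_zero_iff.mpr dz
    have nw := norm_ne_zero_iff.mpr dw
    generalize ‖conj (A.b γ) * z + conj (A.a γ)‖ = X at nz ⊢
    generalize ‖conj (A.b γ) * w + conj (A.a γ)‖ = Y at nw ⊢
    field_simp
  have e3 : ∀ z w, ‖z‖ ≤ 1 → ‖w‖ ≤ 1 → ‖1 - conj (A.act γ z) * A.act γ w‖ *
      ‖1 - conj (A.pt γ⁻¹) * z‖ * ‖1 - conj (A.pt γ⁻¹) * w‖ = A.kk γ * ‖1 - conj z * w‖ := by
    intro z w hz hw
    have dz := B02_den _ _ _ hab hz
    have dw := B02_den _ _ _ hab hw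
    have dz' : conj (conj (A.b γ) * z + conj (A.a γ)) ≠ 0 := (map_ne_zero _).mpr dz
    have h2 : 1 - conj (A.act γ z) * A.act γ w = (1 - conj z * w) /
        (conj (conj (A.b γ) * z + conj (A.a γ)) * (conj (A.b γ) * w + conj (A.a γ))) := by
      unfold DiscRep.act mob
      rw [map_div₀, div_mul_div_comm, eq_div_iff (mul_ne_zero dz' dw), sub_mul, one_mul,
        div_mul_cancel₀ _ (mul_ne_zero dz' dw)]
      simp only [map_add, map_mul, Complex.conj_conj]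
      linear_combination (1 - conj z * w) * hab'
    rw [h2, key z hz, key w hw, B02_kk, norm_div, norm_mul, Complex.norm_conj]
    have nz := norm_ne_zero_iff.mpr dz
    have nw := norm_ne_zero_iff.mpr dw
    generalize ‖conj (A.b γ) * z + conj (A.a γ)‖ = X at nz ⊢
    generalize ‖conj (A.b γ) * w + conj (A.a γ)‖ = Y at nw ⊢
    field_simp
  refine ⟨e1, ?_, e3⟩
  intro z hz
  have h4 := e3 z z hz hz
  have h5 : ∀ w : ℂ, ‖w‖ ≤ 1 → ‖1 - conj w * w‖ = 1 - ‖w‖ ^ 2 := by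
    intro w hw
    rw [mul_comm, Complex.mul_conj, Complex.normSq_eq_norm_sq, ← Complex.ofReal_one,
      ← Complex.ofReal_sub, Complex.norm_real, Real.norm_of_nonneg]
    nlinarith [norm_nonneg w]
  rw [h5 z hz, h5 _ ((h1 Γ A).1 γ z hz)] at h4
  rw [← h4]
  ring

end Pool.Agent.SG
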