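import Pool.Agent.helper17.SG.SpecP

set_option autoImplicit false

open MeasureTheory Set Metric Filter Topology
open scoped ENNReal NNReal ComplexConjugate

namespace Pool.Agent.SG

theorem P09_mono {Γ : Type} [Group Γ] (W : Walk Γ) (D : Set Γ) :
    ∀ n x y, W.hdn D n x y ≤ W.hdn D (n + 1) x y := by
  intro n
  induction n with
  | zero =>
    intro x y
    by_cases hD : x ∈ D
    · by_cases hxy : x = y
      · subst hxy
        simp [Walk.hdn, hD]
      · simp [Walk.hdn, hxy]
    · simp [Walk.hdn, hD]
  | succ n ih =>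
    intro x y
    by_cases hD : x ∈ D
    · by_cases hxy : x = y
      · simp [Walk.hdn, hxy]
      · rw [Walk.hdn, Walk.hdn, if_pos hD, if_neg hxy, if_pos hD, if_neg hxy]
        exact Finset.sum_le_sum fun s _ => mul_le_mul' le_rfl (ih _ _)
    · simp [Walk.hdn, hD]

theorem P09_step {Γ : Type} [Group Γ] (W : Walk Γ) (D : Set Γ) (x y : Γ) (hD : x ∈ D)
    (hxy : x ≠ y) : ∑ s ∈ W.S, W.μ s * W.hid D (x * s) y ≤ W.hid D x y := by
  have h1 : ∑ s ∈ W.S, W.μ s * W.hid D (x * s) y =
      ⨆ n, ∑ s ∈ W.S, W.μ s * W.hdn D n (x * s) y := by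
    rw [← ENNReal.finsetSum_iSup_of_monotone]
    · refine Finset.sum_congr rfl fun s _ => ?_
      rw [Walk.hid, ENNReal.mul_iSup]
    · intro s m n hmn
      exact mul_le_mul' le_rfl (monotone_nat_of_le_succ (fun n => P09_mono W D n (x * s) y) hmn)
  rw [h1]
  refine iSup_le fun n => ?_
  have h2 : W.hdn D (n + 1) x y = ∑ s ∈ W.S, W.μ s * W.hdn D n (x * s) y := by
    rw [Walk.hdn, if_pos hD, if_neg hxy]
  rw [← h2]
  exact le_iSup (fun n => W.hdn D n x y) (n + 1)

theorem P09 (h1 : P01_stmt) (h5 : P05_stmt) : P09_stmt := by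
  intro Γ _ W D x y
  obtain ⟨-, -, -, -, -⟩ := h1 Γ W
  obtain ⟨-, -, -, h5a, h5b, -⟩ := h5 Γ W D
  have key : ∀ n x, W.hitn n x y ≤ W.hid D x y + ∑' w, W.exi D x w * W.hit w y := by
    intro n
    induction n with
    | zero =>
      intro x
      by_cases hxy : x = y
      · by_cases hD : x ∈ D
        · refine le_add_right ?_
          have h2 : W.hdn D 0 x y = 1 := by rw [Walk.hdn, if_pos ⟨hD, hxy⟩]
          calc W.hitn 0 x y = W.hdn D 0 x y := by rw [h2]; simp [Walk.hitn, hxy]
            _ ≤ W.hid D x y := le_iSup (fun n => W.hdn D n x y) 0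
        · refine le_add_left ?_
          calc W.hitn 0 x y ≤ W.hit x y := le_iSup (fun n => W.hitn n x y) 0
            _ = W.exi D x x * W.hit x y := by rw [h5a x hD, one_mul]
            _ ≤ _ := ENNReal.le_tsum (f := fun w => W.exi D x w * W.hit w y) x
      · simp [Walk.hitn, hxy]
    | succ n ih =>
      intro x
      by_cases hD : x ∈ D
      · by_cases hxy : x = y
        · refine le_add_right ?_
          have h2 : W.hdn D 0 x y = 1 := by rw [Walk.hdn, if_pos ⟨hD, hxy⟩]
          calc W.hitn (n + 1) x y = W.hdn D 0 x y := by rw [h2]; simp [Walk.hitn, hxy]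
            _ ≤ W.hid D x y := le_iSup (fun n => W.hdn D n x y) 0
        · have h2 : W.hitn (n + 1) x y = ∑ s ∈ W.S, W.μ s * W.hitn n (x * s) y := by
            rw [Walk.hitn, if_neg hxy]
          rw [h2]
          calc ∑ s ∈ W.S, W.μ s * W.hitn n (x * s) y
              ≤ ∑ s ∈ W.S, W.μ s * (W.hid D (x * s) y +
                  ∑' w, W.exi D (x * s) w * W.hit w y) :=
                Finset.sum_le_sum fun s _ => mul_le_mul' le_rfl (ih _)
            _ = ∑ s ∈ W.S, W.μ s * W.hid D (x * s) y +
                  ∑' w, W.exi D x w * W.hit w y := by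
                simp_rw [mul_add]
                rw [Finset.sum_add_distrib]
                congr 1
                simp_rw [← ENNReal.tsum_mul_left]
                rw [← Summable.tsum_finsetSum (fun s _ => ENNReal.summable)]
                refine tsum_congr fun w => ?_
                rw [h5b x hD w, Finset.sum_mul]
                refine Finset.sum_congr rfl fun s _ => ?_
                ring
            _ ≤ _ := add_le_add (P09_step W D x y hD hxy) le_rfl
      · refine le_add_left ?_
        calc W.hitn (n + 1) x y ≤ W.hit x y := le_iSup (fun n => W.hitn n x y) (n + 1)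
          _ = W.exi D x x * W.hit x y := by rw [h5a x hD, one_mul]
          _ ≤ _ := ENNReal.le_tsum (f := fun w => W.exi D x w * W.hit w y) x
  exact iSup_le fun n => key n x

end Pool.Agent.SG
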