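import Pool.Agent.helper56.SG.SpecG

set_option autoImplicit false

open MeasureTheory Set Metric Filter Topology
open scoped ENNReal NNReal ComplexConjugate
open Pool.Agent.SG

noncomputable section

namespace Pool.Agent.SGG

theorem MPR (hKLI : KLI_stmt) (hPOI : POI_stmt) (hMXP : MXP_stmt) : MPR_stmt := by
  intro W hW hfix r hr hr1
  have hsub : sphere (0 : ℂ) r ⊆ ball (0 : ℂ) 1 := by
    intro z hz
    rw [mem_sphere_zero_iff_norm] at hz
    rw [mem_ball_zero_iff, hz]
    exact hr1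
  have hW' : ContinuousOn W (ball (0 : ℂ) 1) := hW
  obtain ⟨F, hF, hlim⟩ := hPOI r W hr (hW'.mono hsub)
  refine ⟨F, hF, fun z hz => le_antisymm ?_ (hMXP W hW hfix r hr hr1 F hF hlim z hz)⟩
  have hneg : CB (fun y => -W y) := hW'.neg
  have hfix' : ∀ s : ℝ, 0 < s → s < 1 → ∀ x ∈ ball (0 : ℂ) 1, KK s (fun y => -W y) x = -W x := by
    intro s hs hs1 x hx
    obtain ⟨k1, k2, -⟩ := hKLI s hs hs1 x hx
    have h0 : CB (fun _ : ℂ => (0 : ℝ)) := continuousOn_const
    have h2 := (k2 (fun _ => 0) W h0 hW).2.1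
    rw [k1 0, hfix s hs hs1 x hx] at h2
    have h3 : (fun y => -W y) = (fun y => (0 : ℝ) - W y) := by
      funext y
      ring
    rw [h3, h2]
    ring
  have h4 := hMXP (fun y => -W y) hneg hfix' r hr hr1 (fun y => -F y) hF.neg
    (fun ζ hζ => by
      have h5 := (hlim ζ hζ).neg
      simpa using h5) z hz
  simp only [Complex.neg_re] at h4
  linarith

end Pool.Agent.SGG
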