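import Pool.Agent.helper68.SG.SpecF

set_option autoImplicit false

open MeasureTheory Set Metric Filter Topology
open scoped ENNReal NNReal ComplexConjugate commutatorElement

namespace Pool.Agent.SG

theorem F01 : F01_stmt := by
  intro Γ _ ρ
  have h0 : ∀ γ, ∃ a b : ℂ, ‖a‖ ^ 2 - ‖b‖ ^ 2 = 1 ∧ ∀ z : CDisc,
      (((ρ γ : CDisc ≃ₜ CDisc) z : CDisc) : ℂ) = (a * z + b) / (conj b * z + conj a) :=
    fun γ => (ρ γ).2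
  choose a b hab hρ using h0
  have hmul : ∀ γ δ z, ‖z‖ ≤ 1 →
      mob (a (γ * δ)) (b (γ * δ)) z = mob (a γ) (b γ) (mob (a δ) (b δ) z) := by
    intro γ δ z hz
    have hZ : z ∈ closedBall (0 : ℂ) 1 := mem_closedBall_zero_iff.2 hz
    have h1 : (((ρ (γ * δ) : CDisc ≃ₜ CDisc) ⟨z, hZ⟩ : CDisc) : ℂ) =
        mob (a (γ * δ)) (b (γ * δ)) z := hρ (γ * δ) ⟨z, hZ⟩
    have h2 : (((ρ δ : CDisc ≃ₜ CDisc) ⟨z, hZ⟩ : CDisc) : ℂ) = mob (a δ) (b δ) z := hρ δ ⟨z, hZ⟩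
    have h3 : (((ρ γ : CDisc ≃ₜ CDisc) ((ρ δ : CDisc ≃ₜ CDisc) ⟨z, hZ⟩) : CDisc) : ℂ) =
        mob (a γ) (b γ) (((ρ δ : CDisc ≃ₜ CDisc) ⟨z, hZ⟩ : CDisc) : ℂ) := hρ γ _
    have h4 : (ρ (γ * δ) : CDisc ≃ₜ CDisc) ⟨z, hZ⟩ =
        (ρ γ : CDisc ≃ₜ CDisc) ((ρ δ : CDisc ≃ₜ CDisc) ⟨z, hZ⟩) := by
      rw [map_mul]
      rfl
    rw [← h1, h4, h3, h2]
  refine ⟨⟨a, b, hab, hmul⟩, fun γ z => hρ γ z, ?_⟩
  intro hd
  refine ⟨?_, ?_⟩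
  · intro r hr
    refine (hd.discrete r hr).subset ?_
    intro γ hγ
    have h1 : (((ρ γ : CDisc ≃ₜ CDisc) CDisc.zero : CDisc) : ℂ) = mob (a γ) (b γ) 0 :=
      hρ γ CDisc.zero
    rw [mem_setOf_eq, h1]
    exact hγ
  · intro γ hγ
    have h1 : ρ γ = 1 := by
      apply Subtype.ext
      apply Homeomorph.ext
      intro z
      apply Subtype.ext
      have h2 : (((ρ γ : CDisc ≃ₜ CDisc) z : CDisc) : ℂ) = mob (a γ) (b γ) z := hρ γ z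
      rw [h2]
      exact hγ z z.norm_le
    have h2 : ρ γ = ρ 1 := by rw [h1, map_one]
    exact hd.faithful h2

end Pool.Agent.SG
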