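import Pool.Agent.helper17.SG.SpecP

set_option autoImplicit false

open MeasureTheory Set Metric Filter Topology
open scoped ENNReal NNReal ComplexConjugate

namespace Pool.Agent.SG

theorem P03 (h1 : P01_stmt) : P03_stmt := by
  intro Γ _ W x y z
  obtain ⟨-, hle, hself, hstep, -⟩ := h1 Γ W
  have key : ∀ n x, W.hitn n x y * W.hit y z ≤ W.hit x z := by
    intro n
    induction n with
    | zero =>
      intro x
      by_cases hxy : x = y
      · subst hxy
        simp [Walk.hitn]
      · simp [Walk.hitn, hxy]
    | succ n ih =>
      intro x
      by_cases hxy : x = y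
      · subst hxy
        simp [Walk.hitn]
      · by_cases hxz : x = z
        · subst hxz
          rw [hself]
          calc W.hitn (n + 1) x y * W.hit y x ≤ W.hit x y * W.hit y x :=
                mul_le_mul' (le_iSup (fun n => W.hitn n x y) (n + 1)) le_rfl
            _ ≤ 1 * 1 := mul_le_mul' (hle _ _) (hle _ _)
            _ = 1 := one_mul 1
        · rw [hstep x z hxz]
          have h2 : W.hitn (n + 1) x y = ∑ s ∈ W.S, W.μ s * W.hitn n (x * s) y := by
            simp [Walk.hitn, hxy]
          rw [h2, Finset.sum_mul]
          refine Finset.sum_le_sum fun s _ => ?_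
          rw [mul_assoc]
          exact mul_le_mul' le_rfl (ih (x * s))
  change (⨆ n, W.hitn n x y) * W.hit y z ≤ _
  rw [ENNReal.iSup_mul]
  exact iSup_le fun n => key n x

end Pool.Agent.SG
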